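import Mathlib
import Pool.Agent.Helper759.ChromDefs
import Pool.Agent.Helper759.FanE
import Pool.Agent.Helper759.RingE

/-!
# Chromatic roots of 3-connected planar graphs: the half plane Re z >= 2, the region outside two unit
discs, and an open region inside the disc |z - 1| < 1
-/

set_option autoImplicit false
open Classical

namespace Pool.Agent.Results.MP_60451a_co.DenseHalfPlane

/-- The complex roots of the chromatic polynomials of all finite 3-connected planar graphs. -/
def chromaticRoots : Set ℂ :=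
  {z : ℂ | ∃ (n : ℕ) (G : SimpleGraph (Fin n)),
      (4 ≤ n ∧ ∀ S : Finset (Fin n), S.card ≤ 2 →
          (G.induce ((↑S : Set (Fin n))ᶜ)).Connected) ∧
      (∃ (f : Fin n → ℂ) (γ : ∀ u v : Fin n, Path (f u) (f v)),
          Function.Injective f ∧
          (∀ u v : Fin n, G.Adj u v →
              Function.Injective ⇑(γ u v) ∧
              ∀ (t : unitInterval) (w : Fin n), γ u v t = f w → w = u ∨ w = v) ∧
          (∀ u v x y : Fin n, G.Adj u v → G.Adj x y → s(u, v) ≠ s(x, y) →
              ∀ a b : unitInterval, γ u v a = γ x y b → ∃ w : Fin n, γ u v a = f w)) ∧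
      (∑ S ∈ G.edgeFinset.powerset,
          (-1 : ℂ) ^ S.card *
            z ^ Nat.card (SimpleGraph.fromEdgeSet (↑S : Set (Sym2 (Fin n)))).ConnectedComponent) = 0}

/-- The closure of the set of chromatic roots of 3-connected planar graphs contains every `z` with
`Re z ≥ 2`, every `z` with `|z - 1| > 1` and `|z - 2| > 1`, and every `z` with `|z - 1| < 1`,
`|z - 2| > 1` and `|z - 2|^2 < |z|`. -/
theorem result :
    (∀ z : ℂ, 2 ≤ z.re → z ∈ closure chromaticRoots) ∧
    (∀ z : ℂ, 1 < ‖z - 1‖ → 1 < ‖z - 2‖ → z ∈ closure chromaticRoots) ∧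
    (∀ z : ℂ, ‖z - 1‖ < 1 → 1 < ‖z - 2‖ → ‖z - 2‖ ^ 2 < ‖z‖ → z ∈ closure chromaticRoots) :=
  ⟨fun z h => Pool.Agent.Helper759.Chrom.Ring.half_dense z h,
    fun z h1 h2 => Pool.Agent.Helper759.Chrom.fan_dense z h1 h2,
    fun z h1 h2 h3 => Pool.Agent.Helper759.Chrom.Ring.disc_dense z h1 h2 h3⟩

end Pool.Agent.Results.MP_60451a_co.DenseHalfPlane
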