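import Mathlib
import Pool.Agent.Helper759.ChromDefs
import Pool.Agent.Helper759.ChromE
import Pool.Agent.Helper759.FanE

/-!
# Chromatic roots of 3-connected planar graphs are dense outside two unit discs
-/

set_option autoImplicit false
open Classical

namespace Pool.Agent.Results.MP_60451a_co.DenseOutsideTwoDiscs

/-- The complex roots of the chromatic polynomials of all finite 3-connected planar graphs. -/
def chromaticRoots : Set ℂ :=
  {z : ℂ | ∃ (n : ℕ) (G : SimpleGraph (Fin n)),
      (4 ≤ n ∧ ∀ S : Finset (Fin n), S.card ≤ 2 →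
          (G.induce ((↑S : Set (Fin n))ᶜ)).Connected) ∧
      (∃ (f : Fin n → ℂ) (γ : ∀ u v : Fin n, Path (f u) (f v)),
          Function.Injective f ∧
          (∀ u v : Fin n, G.Adj u v →
              Function.Injective ⇑(γ u v) ∧
              ∀ (t : unitInterval) (w : Fin n), γ u v t = f w → w = u ∨ w = v) ∧
          (∀ u v x y : Fin n, G.Adj u v → G.Adj x y → s(u, v) ≠ s(x, y) →
              ∀ a b : unitInterval, γ u v a = γ x y b → ∃ w : Fin n, γ u v a = f w)) ∧
      (∑ S ∈ G.edgeFinset.powerset,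
          (-1 : ℂ) ^ S.card *
            z ^ Nat.card (SimpleGraph.fromEdgeSet (↑S : Set (Sym2 (Fin n)))).ConnectedComponent) = 0}

/-- The closure of the set of chromatic roots of 3-connected planar graphs contains every `z` with
`|z - 1| > 1` and `|z - 2| > 1`, and also every `z` with `1 < |z - 1| < |z^2 - 3z + 3|` and
`|z - 3| < |z^2 - 3z + 3|`. -/
theorem result :
    (∀ z : ℂ, 1 < ‖z - 1‖ → 1 < ‖z - 2‖ → z ∈ closure chromaticRoots) ∧
    (∀ z : ℂ, 1 < ‖z - 1‖ → ‖z - 1‖ < ‖z ^ 2 - 3 * z + 3‖ → ‖z - 3‖ < ‖z ^ 2 - 3 * z + 3‖ →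
      z ∈ closure chromaticRoots) :=
  ⟨fun z h1 h2 => Pool.Agent.Helper759.Chrom.fan_dense z h1 h2,
    fun z h1 h2 h3 => Pool.Agent.Helper759.Chrom.main_dense z h1 h2 h3⟩

end Pool.Agent.Results.MP_60451a_co.DenseOutsideTwoDiscs
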